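import Pool.Agent.TH641.EN.Asm
import Pool.Agent.TH763.DB.Main
import Pool.Agent.TH760.EN.Two
import Pool.Agent.TH406.EN.Q3
import Pool.Agent.TH938.Q5
import Pool.Agent.TH335.EN.EndS

/-! Uniform multiplicities, every `n ≥ 37` and every `n ≥ 40` divisible by `4`: no hypothesis. -/

namespace Pool.Agent.TH641.EN

open Finset Pool.Agent.TH176.Nag Pool.Agent.TH603.Sur Pool.Agent.TH641.UM Pool.Agent.TH760.EN
open Pool.Agent.TH763.DB (CluHyp doubling_of exists_clu)

theorem clu : CluHyp :=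
  fun {_ _} {_} [Finite _] {_} hN {_} hpos {_} h1 h2 => exists_clu hN hpos h1 h2

theorem endS_two : EndS 2 := Pool.Agent.TH335.EN.endS' hs2

theorem endS_three : EndS 3 := Pool.Agent.TH335.EN.endS' Pool.Agent.TH406.EN.hs3

theorem endS_five : EndS 5 := Pool.Agent.TH335.EN.endS' (Pool.Agent.TH938.Q5.hs5 he2 Pool.Agent.TH406.EN.he3)

theorem crit37 {n m : ℕ} (hn : 37 ≤ n) : CritE (4 / 3) n m :=
  crit16 clu endS_two endS_three endS_five hn

/-- **Uniform multiplicities, every `n ≥ 37`, every multiplicity, every degree.** -/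
theorem exp37 {n : ℕ} (hn : 37 ≤ n) {m : ℕ} (hm : 1 ≤ m) {L : Type} [Field L] [CharZero L] :
    ∃ F : MvPolynomial (Fin n × Fin 2) ℚ, F ≠ 0 ∧ ∀ (P : Fin n → Fin 2 → L),
      MvPolynomial.aeval (fun ij : Fin n × Fin 2 => P ij.1 ij.2) F ≠ 0 →
      ∀ d : ℕ, Pool.Agent.H932R3.ExpDim L (fun _ => m) P d :=
  expDim_37 clu endS_two endS_three endS_five hn hm

end Pool.Agent.TH641.EN
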