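import Pool.Agent.TH641.EN.E
import Pool.Agent.TH641.UM.MS
import Pool.Agent.TH641.UM.Outer2
import Pool.Agent.TH763.DB.Dbl
import Pool.Agent.TH387.SH.Two

/-! Uniform multiplicities, every `n ≥ 37`: the critical degrees, from the doubling theorem and the ends. -/

namespace Pool.Agent.TH641.EN

open Finset Pool.Agent.TH176.Nag Pool.Agent.TH603.Sur Pool.Agent.TH641.UM Pool.Agent.TH760.EN
open Pool.Agent.TH763.DB (CluHyp doubling_of)

theorem cond_ms {ι : Type} [Fintype ι] (w : ι → ℕ) :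
    Pool.Agent.TH603.Sur.cond w = ((ms w).map (fun a => (a + 1).choose 2)).sum := by
  unfold Pool.Agent.TH603.Sur.cond ms
  have key : ∀ s : Finset ι, ∑ i ∈ s, (w i + 1).choose 2 =
      ((∑ i ∈ s, ({w i} : Multiset ℕ)).map (fun a => (a + 1).choose 2)).sum := by
    classical
    intro s
    induction s using Finset.induction_on with
    | empty => simp
    | insert i s hi ih =>
      rw [Finset.sum_insert hi, Finset.sum_insert hi, Multiset.map_add, Multiset.sum_add, ih]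
      simp
  exact key univ

/-- independence depends on the multiset of the multiplicities only -/
theorem Sur_of_ms {ι κ : Type} [Fintype ι] [Fintype κ] {w : ι → ℕ} {v : κ → ℕ} {S : Set (ℤ × ℤ)}
    (h : ms w = ms v) (hS : Sur w S) : Sur v S := by
  obtain ⟨T, h1, h2, h3⟩ := hS
  exact ⟨T, h1, by rw [h2, cond_ms, cond_ms, h], Emp_of_ms h.le h3⟩

/-- the conclusion of the doubling theorem for `n = 4 a + c` points -/
theorem crit_of_ends (H : CluHyp) {a c n m d : ℕ} (ha : 0 < a) (hn : n = 4 * a + c)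
    (h1 : Sur (wt a c (2 * m) m) (TZ d)) (h2 : Emp (wt a c (2 * m + 1) m) (TZ d)) :
    ((d + 2).choose 2 ≤ n * (m + 1).choose 2 → Emp (fun _ : Fin n => m) (TZ d)) ∧
    (n * (m + 1).choose 2 ≤ (d + 2).choose 2 → Sur (fun _ : Fin n => m) (TZ d)) := by
  rw [← coe_TF] at h1 h2
  have key := doubling_of H (N := a) (m := m) (e := fun _ : Fin c => m) ha (S := TF d)
    (fun u hu => by
      have hu' : u ∈ TZ d := by rw [← coe_TF]; exact mem_coe.2 hu
      exact ⟨hu'.1, hu'.2.1⟩) h1 h2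
  have hc : Pool.Agent.TH603.Sur.cond
      (Sum.elim (fun _ : Fin a × (Fin 2 × Fin 2) => m) (fun _ : Fin c => m)) =
      n * (m + 1).choose 2 := by
    rw [hn]
    unfold Pool.Agent.TH603.Sur.cond
    rw [Fintype.sum_sum_type]
    simp only [Sum.elim_inl, Sum.elim_inr, sum_const, card_univ, Fintype.card_prod,
      Fintype.card_fin, smul_eq_mul]
    ring
  have hms : ms (Sum.elim (fun _ : Fin a × (Fin 2 × Fin 2) => m) (fun _ : Fin c => m)) =
      ms (fun _ : Fin n => m) := by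
    rw [ms_sum, ms_const, ms_fin, ms_fin, hn, ← add_smul]
    congr 1
    simp
    ring
  rw [hc, card_TF, coe_TF] at key
  exact ⟨fun h => Emp_of_ms hms.le (key.1 h), fun h => Sur_of_ms hms (key.2 h)⟩

/-- the two inequalities in the critical degrees -/
theorem crit_arith {n m d : ℕ} (hn : 36 ≤ n) {a c : ℝ} (hc : c ≤ 10) (hnac : (n : ℝ) = 4 * a + c)
    (hd : |2 * (d : ℝ) + 3 - √(n : ℝ) * (2 * m + 1)| < 4 / 3) :
    √(n : ℝ) * d < (n : ℝ) * m + 2 * a ∧ (n : ℝ) * m + 2 * a + c < √(n : ℝ) * (d + 3) := by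
  have hnR : (36 : ℝ) ≤ n := by exact_mod_cast hn
  obtain ⟨s, hs⟩ : ∃ s : ℝ, s = √(n : ℝ) := ⟨_, rfl⟩
  have hss : s * s = n := by rw [hs]; exact Real.mul_self_sqrt (by linarith)
  have hs6 : 6 ≤ s := by rw [hs]; exact Real.le_sqrt_of_sq_le (by norm_num; linarith)
  rw [← hs] at hd ⊢
  obtain ⟨h1, h2⟩ := abs_lt.1 hd
  have h3 : s * (2 * (d : ℝ) + 3 - s * (2 * m + 1)) < s * (4 / 3) := mul_lt_mul_of_pos_left h2 (by linarith)
  have h4 : s * (-(4 / 3)) < s * (2 * (d : ℝ) + 3 - s * (2 * m + 1)) := mul_lt_mul_of_pos_left h1 (by linarith)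
  have e : s * (2 * (d : ℝ) + 3 - s * (2 * m + 1)) = 2 * (s * d) + 3 * s - n * (2 * m + 1) := by
    rw [← hss]; ring
  rw [e] at h3 h4
  constructor
  · linarith
  · linarith

/-- the critical degrees for `n = 4 a + c` -/
theorem crit_c (H : CluHyp) {c : ℕ} (hE : EndE c) (hS : EndS c) {a n m : ℕ} (hn : n = 4 * a + c)
    (h36 : 36 ≤ n) (hc : c ≤ 10) : CritE (4 / 3) n m := by
  intro d hd
  have hnac : (n : ℝ) = 4 * (a : ℝ) + (c : ℝ) := by rw [hn]; push_cast; ring
  have hcR : (c : ℝ) ≤ 10 := by exact_mod_cast hc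
  obtain ⟨h1, h2⟩ := crit_arith h36 hcR hnac hd
  exact crit_of_ends H (by omega) hn (hS a n m d hn h36 h2) (hE a n m d hn h36 h1)

/-- the critical degrees for `n = 4 a` -/
theorem crit_zero (H : CluHyp) {a n m : ℕ} (hn : n = 4 * a) (ha : 10 ≤ a) : CritE (4 / 3) n m := by
  intro d hd
  have hnac : (n : ℝ) = 4 * (a : ℝ) + 0 := by rw [hn]; push_cast; ring
  obtain ⟨h1, h2⟩ := crit_arith (by omega) (by norm_num : (0 : ℝ) ≤ 10) hnac hd
  have haR : (10 : ℝ) ≤ a := by exact_mod_cast ha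
  have hsq : √(n : ℝ) = 2 * √(a : ℝ) := by
    have e : (n : ℝ) = 2 ^ 2 * a := by rw [hnac]; ring
    rw [e, Real.sqrt_mul (by norm_num), Real.sqrt_sq (by norm_num)]
  rw [hsq] at h1 h2
  have h3 : √(a : ℝ) * d < a * (2 * m + 1) := by rw [hnac] at h1; linarith
  have h4 : (a : ℝ) + a * (2 * m) < √(a : ℝ) * (d + 3) := by rw [hnac] at h2; linarith
  refine crit_of_ends H (c := 0) (by omega) hn ?_ ?_
  · have h5 : Sur (fun _ : Fin a => 2 * m) (TZ d) := by
      refine Pool.Agent.TH387.SH.Sur_plane (b := 2 * m) (by rw [Fintype.card_fin]; exact ha)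
        (fun _ => Nat.le_succ _) ?_
      have e : ((∑ _i : Fin a, max (2 * m) (2 * m) : ℕ) : ℝ) = a * (2 * m) := by simp
      rw [Fintype.card_fin, e]
      exact h4
    refine Sur_of_ms ?_ h5
    unfold wt
    rw [ms_sum, ms_fin, ms_fin, zero_smul, add_zero]
  · have h5 : Emp (fun _ : Fin a => 2 * m + 1) (TZ d) := by
      refine Pool.Agent.TH603.EL.Emp_plane (by rw [Fintype.card_fin]; omega) ?_
      have e : (∑ _i : Fin a, ((2 * m + 1 : ℕ) : ℝ)) = a * (2 * m + 1) := by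
        rw [Finset.sum_const, card_univ, Fintype.card_fin, nsmul_eq_mul]
        push_cast
        ring
      rw [Fintype.card_fin, e]
      exact h3
    refine Emp_of_ms (le_of_eq ?_) h5
    unfold wt
    rw [ms_sum, ms_fin, ms_fin, zero_smul, add_zero]

/-- **the critical degrees, every `n ≥ 37`** -/
theorem crit16 (H : CluHyp) (hS2 : EndS 2) (hS3 : EndS 3) (hS5 : EndS 5) {n m : ℕ} (hn : 37 ≤ n) :
    CritE (4 / 3) n m := by
  have h4 : n % 4 = 0 ∨ n % 4 = 1 ∨ n % 4 = 2 ∨ n % 4 = 3 := by omega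
  rcases h4 with h | h | h | h
  · exact crit_zero H (a := n / 4) (by omega) (by omega)
  · exact crit_c H endE_five hS5 (a := n / 4 - 1) (by omega) (by omega) (by norm_num)
  · exact crit_c H endE_two hS2 (a := n / 4) (by omega) (by omega) (by norm_num)
  · exact crit_c H endE_three hS3 (a := n / 4) (by omega) (by omega) (by norm_num)

/-- **Uniform multiplicities, every `n ≥ 37`, every degree.** -/
theorem expDim_37 (H : CluHyp) (hS2 : EndS 2) (hS3 : EndS 3) (hS5 : EndS 5) {n : ℕ} (hn : 37 ≤ n)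
    {m : ℕ} (hm : 1 ≤ m) {L : Type} [Field L] [CharZero L] :
    ∃ F : MvPolynomial (Fin n × Fin 2) ℚ, F ≠ 0 ∧ ∀ (P : Fin n → Fin 2 → L),
      MvPolynomial.aeval (fun ij : Fin n × Fin 2 => P ij.1 ij.2) F ≠ 0 →
      ∀ d : ℕ, Pool.Agent.H932R3.ExpDim L (fun _ => m) P d :=
  expDim_all_of_crit (by omega) hm fun _ => crit16 H hS2 hS3 hS5 hn

/-- **Uniform multiplicities, `n` divisible by `4`, `n ≥ 40`, every degree.** -/
theorem expDim_four (H : CluHyp) {a : ℕ} (ha : 10 ≤ a)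
    {m : ℕ} (hm : 1 ≤ m) {L : Type} [Field L] [CharZero L] :
    ∃ F : MvPolynomial (Fin (4 * a) × Fin 2) ℚ, F ≠ 0 ∧ ∀ (P : Fin (4 * a) → Fin 2 → L),
      MvPolynomial.aeval (fun ij : Fin (4 * a) × Fin 2 => P ij.1 ij.2) F ≠ 0 →
      ∀ d : ℕ, Pool.Agent.H932R3.ExpDim L (fun _ => m) P d :=
  expDim_all_of_crit (by omega) hm fun _ => crit_zero H rfl ha

end Pool.Agent.TH641.EN
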